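import Pool.Agent.Helper57.SS.Goals

/-! Packet SS-HZ1. -/

set_option autoImplicit false

namespace Pool.Agent.Helper83.SS

open MeasureTheory Filter Topology Pool.Agent.Helper57.SS

theorem gHZ1 : G_HZ1 := by
  intro hz r hr hpd
  obtain ⟨σ, hσ, h⟩ := hz (fun p => r p.1) (fun p => hr p.1) (fun c => by
    have h := hpd (c.mapDomain Prod.fst)
    rw [Finsupp.sum_mapDomain_index (fun b => by simp)
      (fun b m₁ m₂ => by
        rw [← Finsupp.sum_add]
        exact Finsupp.sum_congr fun q _ => by ring)] at h
    have h2 : ∀ (p : ℤ × ℤ) (u : ℝ),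
        ((c.mapDomain Prod.fst).sum fun q v => u * v * r (p.1 - q)) =
          c.sum fun q v => u * v * r (p.1 - q.1) := by
      intro p u
      rw [Finsupp.sum_mapDomain_index (fun b => by simp) (fun b m₁ m₂ => by ring)]
    simp only [h2] at h
    exact h)
  refine ⟨σ.map Prod.fst, Measure.isFiniteMeasure_map σ Prod.fst, fun k => ?_⟩
  rw [integral_map measurable_fst.aemeasurable
    (fourier k).continuous.aestronglyMeasurable]
  have h1 := h (k, 0)
  simp only [e2, fourier_zero, mul_one] at h1
  exact h1

end Pool.Agent.Helper83.SS
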