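import Pool.Agent.Helper57.SS.Goals

/-! Packet SS-SHB. -/

set_option autoImplicit false

namespace Pool.Agent.Helper83.SS

open MeasureTheory Filter Topology Pool.Agent.Helper57.SS
open scoped ENNReal

section
variable (ν : Measure Ci) [IsProbabilityMeasure ν]

theorem meas_pre (d : Ci) {A : Set Ci} (hA : MeasurableSet A) :
    MeasurableSet ((fun x => x + d) ⁻¹' A) :=
  (measurable_add_const d) hA

theorem real_compl {A : Set Ci} (hA : MeasurableSet A) : ν.real Aᶜ = 1 - ν.real A := by
  rw [measureReal_compl hA, probReal_univ]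

/-- two-sided form -/
theorem five {ε : ℝ} {d : Ci} (hd : d ∈ Sh ν ε) {A : Set Ci} (hA : MeasurableSet A) :
    ν.real A ≤ ν.real ((fun x => x + d) ⁻¹' A) + ε := by
  have h := hd Aᶜ hA.compl
  rw [Set.preimage_compl, real_compl ν (meas_pre d hA), real_compl ν hA] at h
  linarith

theorem of_five {ε : ℝ} {d : Ci}
    (h : ∀ A : Set Ci, MeasurableSet A → ν.real A ≤ ν.real ((fun x => x + d) ⁻¹' A) + ε) :
    d ∈ Sh ν ε := by
  intro A hA
  have h := h Aᶜ hA.compl
  rw [Set.preimage_compl, real_compl ν (meas_pre d hA), real_compl ν hA] at h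
  linarith

theorem of_closed {ε : ℝ} {d : Ci}
    (h : ∀ K : Set Ci, IsClosed K → ν.real K ≤ ν.real ((fun x => x + d) ⁻¹' K) + ε) :
    d ∈ Sh ν ε := by
  apply of_five
  intro A hA
  refine le_of_forall_pos_le_add fun δ hδ => ?_
  obtain ⟨K, hKA, hK, hlt⟩ := hA.exists_isClosed_lt_add (μ := ν) (measure_ne_top ν A)
    (ε := ENNReal.ofReal δ) (by simpa using hδ)
  have h1 : ν.real A ≤ ν.real K + δ := by
    have : ν A ≤ ν K + ENNReal.ofReal δ := hlt.le
    have h2 := ENNReal.toReal_mono (by finiteness) this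
    rw [ENNReal.toReal_add (by finiteness) (by finiteness), ENNReal.toReal_ofReal hδ.le] at h2
    exact h2
  have h3 : ν.real ((fun x => x + d) ⁻¹' K) ≤ ν.real ((fun x => x + d) ⁻¹' A) :=
    measureReal_mono (Set.preimage_mono hKA)
  have := h K hK
  linarith

theorem closed_one (ε : ℝ) {K : Set Ci} (hK : IsClosed K) :
    IsClosed {d : Ci | ν.real K ≤ ν.real ((fun x => x + d) ⁻¹' K) + ε} := by
  rw [← closure_subset_iff_isClosed]
  intro d hd
  rw [Metric.mem_closure_iff] at hd
  have hm : Measurable (fun x : Ci => x + d) := measurable_add_const d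
  have hfin : IsProbabilityMeasure (ν.map (fun x : Ci => x + d)) :=
    Measure.isProbabilityMeasure_map hm.aemeasurable
  have ht := tendsto_measure_cthickening_of_isClosed (μ := ν.map (fun x : Ci => x + d)) (s := K)
    ⟨1, one_pos, measure_ne_top _ _⟩ hK
  have ht' : Tendsto (fun r => (ν.map (fun x : Ci => x + d)).real (Metric.cthickening r K) + ε)
      (𝓝[>] 0) (𝓝 ((ν.map (fun x : Ci => x + d)).real K + ε)) :=
    ((ENNReal.tendsto_toReal (measure_ne_top _ _)).comp
      (ht.mono_left nhdsWithin_le_nhds)).add_const ε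
  have hKm : (ν.map (fun x : Ci => x + d)).real K = ν.real ((fun x => x + d) ⁻¹' K) := by
    rw [map_measureReal_apply hm hK.measurableSet]
  rw [hKm] at ht'
  refine ge_of_tendsto ht' ?_
  filter_upwards [self_mem_nhdsWithin] with r hr
  obtain ⟨u, hu, hdu⟩ := hd r hr
  have hle : ν.real ((fun x => x + u) ⁻¹' K) ≤
      (ν.map (fun x : Ci => x + d)).real (Metric.cthickening r K) := by
    rw [map_measureReal_apply hm Metric.isClosed_cthickening.measurableSet]
    refine measureReal_mono (fun x hx => ?_) (measure_ne_top _ _)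
    refine Metric.mem_cthickening_of_dist_le (x + d) (x + u) r K hx ?_
    rw [dist_add_left]
    exact hdu.le
  have : ν.real K ≤ ν.real ((fun x => x + u) ⁻¹' K) + ε := hu
  linarith

theorem closed_sh (ε : ℝ) : IsClosed (Sh ν ε) := by
  have : Sh ν ε = ⋂ (K : Set Ci) (_ : IsClosed K),
      {d : Ci | ν.real K ≤ ν.real ((fun x => x + d) ⁻¹' K) + ε} := by
    ext d
    simp only [Set.mem_iInter, Set.mem_ofPred_eq]
    exact ⟨fun hd K hK => five ν hd hK.measurableSet, fun h => of_closed ν h⟩
  rw [this]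
  exact isClosed_biInter fun K hK => closed_one ν ε hK

end

theorem gSHB : G_SHB := by
  intro ν _ ε ε'
  refine ⟨fun h0 A hA => ?_, fun d hd => ?_, fun d d' hd hd' A hA => ?_, fun h d hd A hA => ?_,
    fun d hd A hA => five ν hd hA, closed_sh ν ε⟩
  · simpa using h0
  · intro A hA
    have h := five ν hd (meas_pre (-d) hA)
    have h2 : (fun x : Ci => x + d) ⁻¹' ((fun x => x + -d) ⁻¹' A) = A := by
      ext x
      simp
    rwa [h2] at h
  · have h2 : (fun x : Ci => x + (d + d')) ⁻¹' A =
        (fun x : Ci => x + d) ⁻¹' ((fun x => x + d') ⁻¹' A) := by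
      ext x
      simp [add_assoc]
    rw [h2]
    have h3 := hd _ (meas_pre d' hA)
    have h4 := hd' A hA
    linarith
  · have := hd A hA
    linarith

end Pool.Agent.Helper83.SS
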