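import Pool.Agent.Helper61.SS.Goals

/-!
# Project SS (MP_552bae_an), packet SR1: the spectral radius near the radical
-/

set_option autoImplicit false

namespace Pool.Agent.Helper83.SS

open Pool.Agent.Helper61.SS

universe w

/-- `1 - r` is a unit if `r` is in the Jacobson radical (noncommutative ring). -/
theorem isUnit_one_sub {R : Type w} [Ring R] {r : R} (h : r ∈ Ring.jacobson R) :
    IsUnit (1 - r) := by
  have hleft : ∀ x : R, x - 1 ∈ Ring.jacobson R → ∃ s, s * x = 1 := by
    intro x hx
    rw [← Ideal.jacobson_bot] at hx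
    obtain ⟨s, hs⟩ := Ideal.exists_mul_sub_mem_of_sub_one_mem_jacobson x hx
    rw [Ideal.mem_bot, sub_eq_zero] at hs
    exact ⟨s, hs⟩
  obtain ⟨s, hs⟩ := hleft (1 - r) (by
    have : 1 - r - 1 = -r := by abel
    rw [this]
    exact neg_mem h)
  have hs1 : s - 1 ∈ Ring.jacobson R := by
    have : s - 1 = s * r := by
      rw [mul_sub, mul_one] at hs
      rw [← hs]
      abel
    rw [this]
    exact Ideal.mul_mem_left _ s h
  obtain ⟨s', hs'⟩ := hleft s hs1
  have he : s' = 1 - r := by
    calc s' = s' * (s * (1 - r)) := by rw [hs, mul_one]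
      _ = (s' * s) * (1 - r) := by rw [mul_assoc]
      _ = 1 - r := by rw [hs', one_mul]
  rw [he] at hs'
  exact ⟨⟨1 - r, s, hs', hs⟩, rfl⟩

theorem gSR1 : G_SR1.{w} := by
  intro C _ _ _ _ _ t w ε hε hw htw
  refine iSup₂_le fun k hk ↦ ?_
  have hkε : ‖k‖ ≤ ε := by
    by_contra hcon
    have hlt := not_le.1 hcon
    -- the unit
    set S : WithLp 1 (Unitization ℂ C) := WithLp.toLp 1 ((t - w : C) : Unitization ℂ C) with hS
    have hnS : ‖S‖ ≤ ε := by
      rw [hS, WithLp.unitization_norm_inr]
      exact htw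
    have hone : ‖(1 : WithLp 1 (Unitization ℂ C))‖ = 1 := by
      rw [WithLp.unitization_norm_def]
      have h1 : WithLp.ofLp (1 : WithLp 1 (Unitization ℂ C)) = (1 : Unitization ℂ C) := rfl
      rw [h1, Unitization.fst_one, Unitization.snd_one]
      simp
    have hnot : k ∉ spectrum ℂ S := by
      intro hmem
      have h1 := spectrum.norm_le_norm_mul_of_mem hmem
      rw [hone, mul_one] at h1
      linarith
    rw [spectrum.notMem_iff] at hnot
    have hunit : IsUnit (algebraMap ℂ (Unitization ℂ C) k - ((t - w : C) : Unitization ℂ C)) := by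
      have h1 := hnot.map (WithLp.unitizationAlgEquiv (𝕜 := ℂ) (A := C) ℂ)
      exact h1
    obtain ⟨a, ha⟩ := hunit
    have hk' : ¬ IsUnit (algebraMap ℂ (Unitization ℂ C) k - (t : Unitization ℂ C)) := hk
    apply hk'
    have h2 : algebraMap ℂ (Unitization ℂ C) k - (t : Unitization ℂ C) =
        a * (1 - (↑a⁻¹ : Unitization ℂ C) * (w : Unitization ℂ C)) := by
      rw [mul_sub, mul_one, ← mul_assoc, Units.mul_inv, one_mul, ha, Unitization.inr_sub]
      abel
    rw [h2]
    exact a.isUnit.mul (isUnit_one_sub (Ideal.mul_mem_left _ _ hw))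
  rw [← ENNReal.ofReal_coe_nnreal]
  exact ENNReal.ofReal_le_ofReal hkε

end Pool.Agent.Helper83.SS
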